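import Pool.Agent.Q70.UeE

/-!
# Weak interpolation sets of order `k ≥ 2` have upper Banach density `< 1 / k`

The definitions `TDS` and `IsWeakInterpolationSet` are in `Pool.Agent.Q70.WeakInterp`,
`TDS.UniquelyErgodic` is in `Pool.Agent.Q70.UeC` and `upperBanachDensity` in `Pool.Agent.Q70.UeD`.
-/

set_option autoImplicit false

namespace Pool.Agent.Results.MP_28fd2b_an.StrictDensity

open MeasureTheory Set Filter Topology Q70.Ue Q70.WeakInterp
open scoped ENNReal NNReal

universe u

/-- For `k ≥ 2`, every weak interpolation set of order `k` for uniquely ergodic systems has upper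
Banach density strictly less than `1 / k`. -/
theorem result (k : ℕ) (hk : 2 ≤ k) (S : Set ℕ)
    (hS : IsWeakInterpolationSet.{u} TDS.UniquelyErgodic k S) :
    upperBanachDensity S < 1 / (k : ℝ) := by
  classical
  by_contra hge
  push Not at hge
  have hk' : (0 : ℝ) < k := by
    have : 0 < k := by omega
    exact_mod_cast this
  obtain ⟨N, l, hw⟩ := exists_windows hge (by positivity)
  have hev : StrictMono (fun j : ℕ => 2 * j) := fun a b h => by simp only; omega
  have hodd : StrictMono (fun j : ℕ => 2 * j + 1) := fun a b h => by simp only; omega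
  have hrun := fun {L : ℕ} (hL : 0 < L) => exists_run hk hS (hw.sub hev) hL
  obtain ⟨A, hUE, x, -, F, hF, hFx⟩ := hS (fun n => widx N l n % 2)
    (fun n _ => lt_of_lt_of_le (Nat.mod_lt _ (by norm_num)) hk)
  letI : MeasurableSpace A.X := borel A.X
  haveI : BorelSpace A.X := ⟨rfl⟩
  obtain ⟨μ, ⟨hμp, hμT⟩, huniq⟩ := hUE
  have hT := A.continuous_T
  have hμ : UE A.T μ := ⟨hμp, hμT, fun ν h1 h2 => huniq ν ⟨h1, h2⟩⟩
  have hcl : ∀ c : ℂ, IsClosed {y | F y = c} := fun c => isClosed_eq hF continuous_const
  -- the value `1` has positive measure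
  have h1 : (1 : ℝ) / k ≤ μ.real {y | F y = 1} := by
    refine closed_mass hT hμ hw x (hcl 1) hodd ?_
    intro j i hi hiS
    have h2 := hFx _ hiS
    rw [widx_eq hw hi] at h2
    have h3 : (2 * j + 1) % 2 = 1 := by omega
    rw [h3] at h2
    simpa using h2
  -- a point whose whole orbit is in `{F = 0}`
  have hpt : ∃ y : A.X, ∀ q : ℕ, F (A.T^[q] y) = 0 := by
    let C : ℕ → Set A.X := fun L => {y | ∀ q < L + 1, F (A.T^[q] y) = 0}
    have hC : ∀ L, IsClosed (C L) := by
      intro L
      have : C L = ⋂ q ∈ Finset.range (L + 1), {y | F (A.T^[q] y) = 0} := by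
        ext y; simp [C]
      rw [this]
      refine isClosed_biInter fun q _ => ?_
      exact isClosed_eq (hF.comp (hT.iterate q)) continuous_const
    have hne : (⋂ L, C L).Nonempty := by
      refine IsCompact.nonempty_iInter_of_sequence_nonempty_isCompact_isClosed C ?_ ?_ ?_ hC
      · intro L y hy q hq
        exact hy q (by omega)
      · intro L
        obtain ⟨j, p, hp, hq⟩ := hrun (L := L + 1) (by omega)
        refine ⟨A.T^[N (2 * j) + p] x, fun q hqL => ?_⟩
        have h2 := hFx _ (hq q hqL)
        simp only [Function.comp_apply] at h2 hp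
        rw [widx_eq hw (by omega)] at h2
        have h3 : (2 * j) % 2 = 0 := by omega
        rw [h3] at h2
        rw [← Function.iterate_add_apply]
        have h4 : q + (N (2 * j) + p) = N (2 * j) + (p + q) := by omega
        rw [h4]
        simpa using h2
      · exact (hC 0).isCompact
    obtain ⟨y, hy⟩ := hne
    exact ⟨y, fun q => mem_iInter.1 hy q q (by omega)⟩
  obtain ⟨y, hy⟩ := hpt
  have h0 : μ.real {y | F y = 0} < 1 := by
    have h2 : Disjoint {y | F y = (0 : ℂ)} {y | F y = (1 : ℂ)} := by
      refine Set.disjoint_left.2 fun z hz hz' => ?_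
      have h3 : F z = 0 := hz
      have h4 : F z = 1 := hz'
      rw [h3] at h4
      exact zero_ne_one h4
    have h3 : μ.real {y | F y = (0 : ℂ)} + μ.real {y | F y = (1 : ℂ)} ≤ 1 := by
      rw [← measureReal_union h2 (hcl 1).measurableSet]
      exact measureReal_le_one
    have h4 : (0 : ℝ) < 1 / k := by positivity
    linarith
  have h5 := closed_visits hT hμ (fun _ => y) (fun j => j + 1) (tendsto_add_atTop_nat 1)
    (fun j => Nat.succ_pos j) (hcl 0) h0
  obtain ⟨j, hj⟩ := h5.exists
  have h6 : cnt A.T y (j + 1) {y | F y = 0} = j + 1 := by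
    unfold cnt
    rw [Finset.filter_true_of_mem]
    · simp
    · intro i _
      exact hy i
  rw [h6] at hj
  linarith

end Pool.Agent.Results.MP_28fd2b_an.StrictDensity
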